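import Pool.Agent.H28.VM.Basic

/-!
# MP_71a28e_an, module NT: self-improvement of the polynomial bounds
-/

set_option autoImplicit false

open MeasureTheory

namespace Pool.Agent.H53.VM

open Pool.Agent.H28.VM

theorem integral_ee (n : ℤ) :
    ∫ x in (0 : ℝ)..(2 * Real.pi), ee ((n : ℝ) * x) = if n = 0 then ((2 * Real.pi : ℝ) : ℂ) else 0 := by
  split_ifs with h
  · subst h
    simp
  · have hn : (n : ℂ) * Complex.I ≠ 0 := by
      apply mul_ne_zero (by exact_mod_cast h) Complex.I_ne_zero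
    have h1 : ∀ x : ℝ, ee ((n : ℝ) * x) = Complex.exp (((n : ℂ) * Complex.I) * x) := by
      intro x; unfold ee; push_cast; congr 1; ring
    simp only [h1]
    rw [integral_exp_mul_complex hn]
    have h2 : Complex.exp ((n : ℂ) * Complex.I * ((2 * Real.pi : ℝ) : ℂ)) = 1 := by
      rw [Complex.exp_eq_one_iff]
      exact ⟨n, by push_cast; ring⟩
    rw [h2]; simp

/-- averaging: a bound on a trigonometric polynomial bounds its zero frequency part -/
theorem avg {ι : Type*} (S : Finset ι) (n : ι → ℤ) (a : ι → ℂ) (B : ℝ)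
    (h : ∀ τ : ℝ, ‖∑ i ∈ S, a i * ee ((n i : ℝ) * τ)‖ ≤ B) :
    ‖∑ i ∈ S with n i = 0, a i‖ ≤ B := by
  have hpi : (0 : ℝ) < 2 * Real.pi := by positivity
  have h1 : ∫ x in (0 : ℝ)..(2 * Real.pi), ∑ i ∈ S, a i * ee ((n i : ℝ) * x) =
      ((2 * Real.pi : ℝ) : ℂ) * ∑ i ∈ S with n i = 0, a i := by
    rw [intervalIntegral.integral_finsetSum]
    · rw [Finset.sum_filter, Finset.mul_sum]
      refine Finset.sum_congr rfl fun i _ => ?_
      rw [intervalIntegral.integral_const_mul, integral_ee]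
      split_ifs <;> ring
    · intro i _
      apply Continuous.intervalIntegrable
      fun_prop
  have h2 := intervalIntegral.norm_integral_le_of_norm_le_const
    (a := (0 : ℝ)) (b := 2 * Real.pi) (C := B)
    (f := fun x => ∑ i ∈ S, a i * ee ((n i : ℝ) * x)) (fun x _ => h x)
  rw [h1, norm_mul, Complex.norm_real, Real.norm_eq_abs, abs_of_pos hpi, sub_zero,
    abs_of_pos hpi, mul_comm] at h2
  exact le_of_mul_le_mul_right h2 hpi

theorem mm_nonneg (h : ℝ → ℝ) (hh : Cut h) (c : ℤ × ℤ → ℂ) (t : ℝ)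
    (hu : ∀ z ∈ QQ, 0 ≤ u c t z) : 0 ≤ mm h c t := by
  unfold mm
  apply setIntegral_nonneg
  · exact (measurableSet_Ioo.prod measurableSet_Ioo)
  · intro z hz
    have hz' := hz
    simp only [QQ, Set.mem_prod, Set.mem_Ioo] at hz'
    obtain ⟨⟨h1, h2⟩, h3, h4⟩ := hz'
    have s1 : 0 ≤ Real.sin z.1 := Real.sin_nonneg_of_nonneg_of_le_pi h1.le (by linarith [Real.pi_pos])
    have s2 : 0 ≤ Real.sin z.2 := Real.sin_nonneg_of_nonneg_of_le_pi h3.le (by linarith [Real.pi_pos])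
    exact mul_nonneg (mul_nonneg (hh.nonneg _) (mul_nonneg s1 s2)) (hu z hz)

theorem II_nonneg (h : ℝ → ℝ) (hh : Cut h) (c : ℤ × ℤ → ℂ) (T : ℝ) (hT : 0 ≤ T)
    (hu : ∀ t : ℝ, |t| ≤ T → ∀ z ∈ QQ, 0 ≤ u c t z) : 0 ≤ II h c T := by
  unfold II
  apply intervalIntegral.integral_nonneg (by linarith)
  intro t ht
  exact mm_nonneg h hh c t (hu t (abs_le.mpr ⟨ht.1, ht.2⟩))

/-- coefficient bound from packets at time `0` -/
theorem coef_of_apk (c : ℤ × ℤ → ℂ) (J : ℕ) (k : ℤ × ℤ) (B : ℝ)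
    (h : ∀ z₀ : ℝ × ℝ, ‖apk c J k 0 z₀‖ ≤ B) : ‖c k‖ ≤ (2 * (J : ℝ) + 1) ^ 2 * B := by
  have h1 : ∀ y : ℝ, ‖∑ j ∈ (IJ J ×ˢ IJ J) with j.1 = 0,
      ((win J j.1 * win J j.2 : ℝ) : ℂ) * c (k + j) * ee ((j.2 : ℝ) * y)‖ ≤ B := by
    intro y
    apply avg (IJ J ×ˢ IJ J) (fun j => j.1)
      (fun j => ((win J j.1 * win J j.2 : ℝ) : ℂ) * c (k + j) * ee ((j.2 : ℝ) * y)) B
    intro x
    have := h (x, y)
    unfold apk at this
    refine le_of_eq_of_le ?_ this
    congr 1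
    refine Finset.sum_congr rfl fun j _ => ?_
    rw [mul_zero, sub_zero]
    unfold dt
    rw [ee_add]
    ring
  have h2 := avg (((IJ J ×ˢ IJ J)).filter (fun j => j.1 = 0)) (fun j => j.2)
      (fun j => ((win J j.1 * win J j.2 : ℝ) : ℂ) * c (k + j)) B h1
  have h3 : Finset.filter (fun j : ℤ × ℤ => j.2 = 0)
      (Finset.filter (fun j : ℤ × ℤ => j.1 = 0) (IJ J ×ˢ IJ J)) = {(0, 0)} := by
    ext ⟨a, b⟩
    simp only [Finset.mem_filter, Finset.mem_product, Finset.mem_singleton, Prod.mk.injEq]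
    constructor
    · rintro ⟨⟨_, h1⟩, h2⟩; exact ⟨h1, h2⟩
    · rintro ⟨rfl, rfl⟩; exact ⟨⟨⟨zero_mem_IJ J, zero_mem_IJ J⟩, rfl⟩, rfl⟩
  rw [h3, Finset.sum_singleton] at h2
  have h4 : k + ((0, 0) : ℤ × ℤ) = k := by ext <;> simp
  rw [h4, norm_mul, Complex.norm_real, Real.norm_eq_abs] at h2
  simp only at h2
  rw [abs_of_nonneg (mul_nonneg (win_nonneg J 0) (win_nonneg J 0))] at h2
  have h5 := one_le_mul_win_zero J
  have h6 := win_zero_pos J
  have h7 : 1 ≤ ((2 * (J : ℝ) + 1) * win J 0) ^ 2 := one_le_pow₀ h5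
  calc ‖c k‖ ≤ ((2 * (J : ℝ) + 1) * win J 0) ^ 2 * ‖c k‖ :=
        le_mul_of_one_le_left (norm_nonneg _) h7
    _ = (2 * (J : ℝ) + 1) ^ 2 * (win J 0 * win J 0 * ‖c k‖) := by ring
    _ ≤ (2 * (J : ℝ) + 1) ^ 2 * B := by gcongr

/-- line packets are averages of packets -/
theorem aline_of_apk (c : ℤ × ℤ → ℂ) (L : ℕ) (w : ℤ × ℤ) (hw : w ∈ WW) (k : ℤ × ℤ) (t φ B : ℝ)
    (h : ∀ τ : ℝ, ‖apk c (JJ L w k) k t (φ * w.1 / ((w.1 : ℝ) ^ 2 + (w.2 : ℝ) ^ 2) - τ * w.2,
             φ * w.2 / ((w.1 : ℝ) ^ 2 + (w.2 : ℝ) ^ 2) + τ * w.1)‖ ≤ B) :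
    ‖aline c L w k t φ‖ ≤ B := by
  have h2 := avg (IJ (JJ L w k) ×ˢ IJ (JJ L w k)) (fun j => pe j w)
      (fun j => ((win (JJ L w k) j.1 * win (JJ L w k) j.2 : ℝ) : ℂ) * c (k + j) *
        ee (φ * (al j w : ℝ) / ((w.1 : ℝ) ^ 2 + (w.2 : ℝ) ^ 2) - nm (k + j) * t)) B (by
      intro τ
      have := h τ
      unfold apk at this
      refine le_of_eq_of_le ?_ this
      congr 1
      refine Finset.sum_congr rfl fun j _ => ?_
      rw [mul_assoc, ← ee_add]
      congr 2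
      unfold dt al pe
      push_cast
      ring)
  refine le_of_eq_of_le ?_ h2
  congr 1
  unfold aline
  symm
  refine Finset.sum_nbij' (fun j => if w.1 = 1 then j.1 else j.2) (fun l => (l * w.1, l * w.2))
    ?_ ?_ ?_ ?_ ?_
  · intro j hj
    rw [Finset.mem_filter, Finset.mem_product] at hj
    split_ifs
    · exact hj.1.1
    · exact hj.1.2
  · intro l hl
    rw [Finset.mem_filter, Finset.mem_product]
    rw [mem_IJ] at *
    rw [mem_IJ]
    rcases WW_cases hw with rfl | rfl | rfl | rfl <;> simp [pe] <;> omega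
  · intro j hj
    rw [Finset.mem_filter] at hj
    have := hj.2
    rcases WW_cases hw with rfl | rfl | rfl | rfl <;> simp [pe] at this ⊢ <;> ext <;> simp <;> omega
  · intro l _
    rcases WW_cases hw with rfl | rfl | rfl | rfl <;> simp
  · intro j hj
    rw [Finset.mem_filter] at hj
    have hp := hj.2
    have hj1 : j = ((if w.1 = 1 then j.1 else j.2) * w.1, (if w.1 = 1 then j.1 else j.2) * w.2) := by
      rcases WW_cases hw with rfl | rfl | rfl | rfl <;> simp [pe] at hp ⊢ <;> ext <;> simp <;> omega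
    generalize hl : (if w.1 = 1 then j.1 else j.2) = l at hj1 ⊢
    subst hj1
    simp only
    rw [sh_eq]
    congr 2
    have hw2 : ((w.1 : ℝ) ^ 2 + (w.2 : ℝ) ^ 2) ≠ 0 := by
      rcases WW_cases hw with rfl | rfl | rfl | rfl <;> norm_num
    unfold al
    push_cast
    field_simp

theorem final_ineq {R ρ C I S : ℝ} (hR : 1 ≤ R) (hρ : 0 < ρ) (hρR : ρ ≤ R) (hC : 0 < C)
    (hI : 0 ≤ I) (hS : 0 ≤ S) :
    R ^ 2 * (C * R ^ 2 * I + C / R * S) ≤ R ^ 4 * (C * I + C / ρ * S) := by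
  have h1 : C / R ≤ C / ρ := by gcongr
  have h2 : R ^ 2 ≤ R ^ 4 := pow_le_pow_right₀ hR (by norm_num)
  have h3 : R ^ 2 * (C / R * S) ≤ R ^ 4 * (C / ρ * S) := by
    have : 0 ≤ C / R * S := by positivity
    gcongr
  nlinarith

theorem NT (h1 : T_test) (h2 : T_geoA) (h3 : T_geoC) : T_NT := by
  obtain ⟨L₀, hL₀⟩ := h1
  refine ⟨max L₀ 1000, le_max_right _ _, ?_⟩
  intro L hL h hh
  have hL1 : L₀ ≤ L := le_trans (le_max_left _ _) hL
  have hL2 : 1000 ≤ L := le_trans (le_max_right _ _) hL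
  have hL2' : (1000 : ℝ) ≤ L := by exact_mod_cast hL2
  obtain ⟨ε₂, C, ρ₀, hε₂, hC, hρ₀, H⟩ := hL₀ L hL1 h hh
  refine ⟨ε₂, C, max ρ₀ (4 * L), hε₂, hC, le_trans hρ₀ (le_max_left _ _), ?_⟩
  intro ε hε hε2 T ρ c N M hT hρ hc hNB hMB hpos
  have hρ1 : ρ₀ ≤ ρ := le_trans (le_max_left _ _) hρ
  have hρ2 : 4 * (L : ℝ) ≤ ρ := le_trans (le_max_right _ _) hρ
  have hI := II_nonneg h hh c T (by linarith) hpos
  have hρpos : 0 < ρ := by linarith
  have hNM : 0 ≤ N + M := add_nonneg hNB.nonneg hMB.nonneg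
  have HH := H ε hε hε2 T ρ c N M hρ1 hc hNB hMB hpos
  have hne : ∀ k : ℤ × ℤ, ρ ≤ nm k → k ≠ 0 := by
    intro k hk h0
    rw [h0, nm_zero] at hk
    linarith
  refine ⟨by positivity, ?_, ?_⟩
  · intro k hk hCC
    have hR : 4000 ≤ nm k := by linarith
    set J := ⌊nm k / L⌋₊ with hJ
    have hLpos : (0 : ℝ) < L := by linarith
    have hJ1 : (J : ℝ) ≤ nm k / L := Nat.floor_le (by positivity)
    have hJ2 : nm k / L < J + 1 := Nat.lt_floor_add_one _
    rw [le_div_iff₀ hLpos] at hJ1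
    rw [div_lt_iff₀ hLpos] at hJ2
    have hJ3 : (1 : ℝ) ≤ J := by
      have : (3 : ℝ) < (J : ℝ) := by
        by_contra hcon
        push Not at hcon
        nlinarith
      linarith
    have hJ4 : 2 * (J : ℝ) + 1 ≤ nm k := by nlinarith
    have hb : ∀ z₀ : ℝ × ℝ, ‖apk c J k 0 z₀‖ ≤
        C * nm k ^ 2 * II h c T + C / nm k * (N + M) := by
      intro z₀
      obtain ⟨t', ht', hv⟩ := h3 k (hne k hk) hCC z₀
      refine HH k J hk (by nlinarith) (by nlinarith) 0 t' z₀ (by linarith) ?_ hv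
      rw [sub_zero]; linarith
    have hb2 := coef_of_apk c J k _ hb
    refine hb2.trans ?_
    have hB : 0 ≤ C * nm k ^ 2 * II h c T + C / nm k * (N + M) := by positivity
    calc (2 * (J : ℝ) + 1) ^ 2 * (C * nm k ^ 2 * II h c T + C / nm k * (N + M)) ≤
        nm k ^ 2 * (C * nm k ^ 2 * II h c T + C / nm k * (N + M)) := by
          have : 0 ≤ 2 * (J : ℝ) + 1 := by positivity
          gcongr
      _ ≤ _ := final_ineq (by linarith) hρpos hk hC hI hNM
  · intro w hw k hk hnear t φ ht hφ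
    have hR : 4000 ≤ nm k := by linarith
    have hb : ‖aline c L w k t φ‖ ≤ C * nm k ^ 2 * II h c T + C / nm k * (N + M) := by
      apply aline_of_apk c L w hw k t φ
      intro τ
      obtain ⟨t', ht', htt, hv⟩ := h2 w hw k (hne k hk) hnear φ τ hφ T (by linarith) t ht
      have hal := al_pe_sq k w
      have hw2 : nm w ^ 2 = 1 ∨ nm w ^ 2 = 2 := by
        rw [nm_sq]
        have := WW_norm hw
        exact_mod_cast this
      have hnear' : 200 * |(al k w : ℝ)| ≤ |(pe k w : ℝ)| := by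
        have := hnear
        unfold near at this
        exact_mod_cast this
      have hal2 : (200 * |(al k w : ℝ)|) ^ 2 ≤ |(pe k w : ℝ)| ^ 2 := by gcongr
      rw [mul_pow, sq_abs, sq_abs] at hal2
      have hp0 := abs_nonneg (pe k w : ℝ)
      have hpe1 : |(pe k w : ℝ)| ≤ 3 / 2 * nm k := by
        apply abs_le_of_sq_le_sq _ (by linarith)
        rcases hw2 with h | h <;> rw [h] at hal <;> nlinarith [sq_nonneg (al k w : ℝ)]
      have hpe2 : nm k ≤ 11 / 10 * |(pe k w : ℝ)| := by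
        apply le_of_sq_le_sq _ (by positivity)
        rw [mul_pow, sq_abs]
        rcases hw2 with h | h <;> rw [h] at hal <;> nlinarith [sq_nonneg (al k w : ℝ), sq_nonneg (nm k)]
      have hJ1 : L * JJ L w k ≤ (pe k w).natAbs := Nat.mul_div_le _ _
      have hJ2 : (pe k w).natAbs < L * (JJ L w k + 1) := by
        have := Nat.lt_mul_div_succ (pe k w).natAbs (show 0 < L by omega)
        exact this
      have hpabs : ((pe k w).natAbs : ℝ) = |(pe k w : ℝ)| := by
        rw [Nat.cast_natAbs]; simp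
      have hJ1' : (L : ℝ) * JJ L w k ≤ |(pe k w : ℝ)| := by
        rw [← hpabs]; exact_mod_cast hJ1
      have hJ2' : |(pe k w : ℝ)| < (L : ℝ) * (JJ L w k + 1) := by
        rw [← hpabs]; exact_mod_cast hJ2
      have hJ3 : (1 : ℝ) ≤ JJ L w k := by
        have h0 : (1 : ℝ) < (JJ L w k : ℝ) := by
          by_contra hcon
          push Not at hcon
          nlinarith
        linarith
      refine HH k (JJ L w k) hk (by linarith) (by nlinarith) t t' _ ht' htt hv
    refine hb.trans ?_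
    have hfi := final_ineq (R := nm k) (by linarith) hρpos hk hC hI hNM
    refine le_trans ?_ hfi
    have hB : 0 ≤ C * nm k ^ 2 * II h c T + C / nm k * (N + M) := by positivity
    apply le_mul_of_one_le_left hB
    nlinarith

end Pool.Agent.H53.VM
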